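import Mathlib
import Pool.Agent.W186.AI.Spec

set_option autoImplicit false

namespace Pool.Agent.W781.AI.TRG

open Complex Polynomial
open scoped Real

theorem key (z : ℂ) (θ : ℝ) (hz : z = cexp (I * (θ : ℂ))) (M k : ℕ) (hk : k ≤ M) :
    z ^ (M + k) - z ^ (M - k) = z ^ M * (2 * I) * ((Real.sin ((k : ℝ) * θ) : ℝ) : ℂ) := by
  have hz0 : z ≠ 0 := by rw [hz]; exact Complex.exp_ne_zero _
  have h1 : z ^ k = cexp (((k : ℂ) * (θ : ℂ)) * I) := by
    rw [hz, ← Complex.exp_nat_mul]; congr 1; ring
  have h2 : (z ^ k)⁻¹ = cexp (-((k : ℂ) * (θ : ℂ)) * I) := by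
    rw [h1, ← Complex.exp_neg]; congr 1; ring
  have h3 : z ^ (M - k) = z ^ M * (z ^ k)⁻¹ := pow_sub₀ z hz0 hk
  have h4 : ((Real.sin ((k : ℝ) * θ) : ℝ) : ℂ) = ((z ^ k)⁻¹ - z ^ k) * I / 2 := by
    rw [h1, Complex.ofReal_sin, Complex.sin, ← Complex.exp_neg]
    push_cast
    congr 3
    · congr 1
      ring
  rw [h3, h4, pow_add]
  have hI : I * I = -1 := Complex.I_mul_I
  linear_combination (z ^ M * (z ^ k)⁻¹ - z ^ M * z ^ k) * (-1) * hI

theorem main : Pool.Agent.W186.AI.S_TRG := by
  intro m n hn r hr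
  set M : ℕ := ∑ i, (2 * n i + 1) with hM
  have hMi : ∀ i, 2 * n i + 1 ≤ M := fun i =>
    Finset.single_le_sum (f := fun i => 2 * n i + 1) (fun _ _ => Nat.zero_le _) (Finset.mem_univ i)
  let N : ℕ := 2 * M + 1
  let p : Fin N → Nat.Primes := fun j => Infinite.natEmbedding Nat.Primes j.1
  have hp : Function.Injective p := by
    intro a b hab
    exact Fin.ext ((Infinite.natEmbedding Nat.Primes).injective hab)
  have hlog : ∀ j, 0 < Real.log ((p j : ℕ) : ℝ) := fun j =>
    Real.log_pos (by exact_mod_cast (p j).2.one_lt)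
  set T : ℝ := ∑ j, Real.log ((p j : ℕ) : ℝ) with hT
  have hT0 : 0 ≤ T := Finset.sum_nonneg fun j _ => (hlog j).le
  have hTj : ∀ j, Real.log ((p j : ℕ) : ℝ) ≤ T := fun j =>
    Finset.single_le_sum (f := fun j => Real.log ((p j : ℕ) : ℝ)) (fun j _ => (hlog j).le)
      (Finset.mem_univ j)
  set w : ℝ := min (r / 2) (1 / (1 + T)) with hw
  have hw0 : 0 < w := lt_min (by linarith) (by positivity)
  have hwr : w < r := lt_of_le_of_lt (min_le_left _ _) (by linarith)
  have hw1 : ∀ j, w * Real.log ((p j : ℕ) : ℝ) ≤ 1 := by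
    intro j
    have h1 : w ≤ 1 / (1 + T) := min_le_right _ _
    calc w * Real.log ((p j : ℕ) : ℝ) ≤ 1 / (1 + T) * (1 + T) := by
          apply mul_le_mul h1 (by linarith [hTj j]) (hlog j).le (by positivity)
      _ = 1 := by field_simp
  refine ⟨w, hw0, hwr, N, p, hp, ?_⟩
  intro c hc
  let θ : Fin N → ℝ := fun j => w * Real.log ((p j : ℕ) : ℝ) * (π / 2)
  have hθ0 : ∀ j, 0 < θ j := fun j => by
    have := hlog j
    have := Real.pi_pos
    positivity
  have hθ1 : ∀ j, θ j ≤ π := fun j => by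
    have h1 := hw1 j
    have h2 := Real.pi_pos
    have h3 : θ j ≤ 1 * (π / 2) := mul_le_mul_of_nonneg_right h1 (by linarith)
    linarith
  let z : Fin N → ℂ := fun j => cexp (I * ((θ j : ℝ) : ℂ))
  have hzinj : Function.Injective z := by
    intro a b hab
    have h1 : I * ((θ a : ℝ) : ℂ) = I * ((θ b : ℝ) : ℂ) := by
      apply Complex.exp_inj_of_neg_pi_lt_of_le_pi
      · simp only [Complex.mul_im, Complex.I_re, Complex.ofReal_im, Complex.I_im, Complex.ofReal_re]
        have := hθ0 a
        have := Real.pi_pos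
        linarith
      · simp only [Complex.mul_im, Complex.I_re, Complex.ofReal_im, Complex.I_im, Complex.ofReal_re]
        have := hθ1 a
        linarith
      · simp only [Complex.mul_im, Complex.I_re, Complex.ofReal_im, Complex.I_im, Complex.ofReal_re]
        have := hθ0 b
        have := Real.pi_pos
        linarith
      · simp only [Complex.mul_im, Complex.I_re, Complex.ofReal_im, Complex.I_im, Complex.ofReal_re]
        have := hθ1 b
        linarith
      · exact hab
    have h2 : ((θ a : ℝ) : ℂ) = ((θ b : ℝ) : ℂ) := mul_left_cancel₀ Complex.I_ne_zero h1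
    have h3 : θ a = θ b := by exact_mod_cast h2
    have h4 : Real.log ((p a : ℕ) : ℝ) = Real.log ((p b : ℕ) : ℝ) := by
      have h5 : w * Real.log ((p a : ℕ) : ℝ) = w * Real.log ((p b : ℕ) : ℝ) :=
        mul_right_cancel₀ (by have := Real.pi_pos; positivity) h3
      exact mul_left_cancel₀ hw0.ne' h5
    have h6 : ((p a : ℕ) : ℝ) = ((p b : ℕ) : ℝ) := by
      apply Real.log_injOn_pos _ _ h4
      · exact Set.mem_Ioi.2 (by exact_mod_cast (p a).2.pos)
      · exact Set.mem_Ioi.2 (by exact_mod_cast (p b).2.pos)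
    apply hp
    apply Subtype.ext
    exact_mod_cast h6
  let Q : ℂ[X] := ∑ i, C (c i) * (X ^ (M + (2 * n i + 1)) - X ^ (M - (2 * n i + 1)))
  have hQdeg : Q.natDegree < Fintype.card (Fin N) := by
    rw [Fintype.card_fin]
    have : Q.natDegree ≤ 2 * M := by
      apply Polynomial.natDegree_sum_le_of_forall_le
      intro i _
      refine (Polynomial.natDegree_C_mul_le _ _).trans ?_
      refine (Polynomial.natDegree_sub_le _ _).trans ?_
      have := hMi i
      simp only [Polynomial.natDegree_X_pow]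
      omega
    simp only [N]
    omega
  have hQeval : ∀ j, Q.eval (z j) = 0 := by
    intro j
    have h1 : Q.eval (z j) = ∑ i, c i * ((z j) ^ (M + (2 * n i + 1)) - (z j) ^ (M - (2 * n i + 1))) := by
      simp only [Q, Polynomial.eval_finset_sum, Polynomial.eval_mul, Polynomial.eval_C,
        Polynomial.eval_sub, Polynomial.eval_pow, Polynomial.eval_X]
    have h2 : ∀ i, c i * ((z j) ^ (M + (2 * n i + 1)) - (z j) ^ (M - (2 * n i + 1))) =
        (z j) ^ M * (2 * I) *
          (c i * ((Real.sin (w * Pool.Agent.W186.AI.yy (n i) * Real.log ((p j : ℕ) : ℝ)) : ℝ) : ℂ)) := by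
      intro i
      rw [key (z j) (θ j) rfl M (2 * n i + 1) (hMi i)]
      have h3 : (((2 * n i + 1 : ℕ) : ℝ)) * θ j =
          w * Pool.Agent.W186.AI.yy (n i) * Real.log ((p j : ℕ) : ℝ) := by
        simp only [θ, Pool.Agent.W186.AI.yy]
        push_cast
        ring
      rw [h3]
      ring
    rw [h1, Finset.sum_congr rfl (fun i _ => h2 i), ← Finset.mul_sum, hc j, mul_zero]
  have hQ0 : Q = 0 := Polynomial.eq_zero_of_natDegree_lt_card_of_eval_eq_zero Q hzinj hQeval hQdeg
  funext i
  have h1 : Q.coeff (M + (2 * n i + 1)) = c i := by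
    simp only [Q, Polynomial.finset_sum_coeff, Polynomial.coeff_C_mul, Polynomial.coeff_sub,
      Polynomial.coeff_X_pow]
    rw [Finset.sum_eq_single i]
    · have : ¬ (M + (2 * n i + 1) = M - (2 * n i + 1)) := by
        have := hMi i; omega
      simp [this]
    · intro b _ hb
      have h2 : ¬ (M + (2 * n i + 1) = M + (2 * n b + 1)) := by
        intro h
        apply hb
        apply hn
        omega
      have h3 : ¬ (M + (2 * n i + 1) = M - (2 * n b + 1)) := by omega
      rw [if_neg h2, if_neg h3]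
      simp
    · intro h
      exact absurd (Finset.mem_univ i) h
  rw [← h1, hQ0]
  simp

end Pool.Agent.W781.AI.TRG
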